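import Pool.Agent.Y521.Cx.Example

/-!
# MP_1d980c_gt: left invariant complex structures on products `G × H` with `H` arbitrary

`IsComplexStructure J` says that `J` is a complex structure on a real Lie algebra `k`, i.e. a left
invariant complex structure on a Lie group with Lie algebra `k`.  `Fil ℝ m Q` is the Lie algebra
`ℝ e₁ ⊕ ℝ e₂ ⊕ ℝ^m` with `[e₁,e₂] = v₀`, `[e₁,a] = T a`, `[e₂,a] = Q(T) a`, `ℝ^m` abelian, where
`T` is the shift `v_j ↦ v_{j+1}` and `Q` is a polynomial divisible by `X²`.  These are the filiform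
Lie algebras with abelian commutator ideal.
-/

open Polynomial Pool.Agent.Y521.Cx

namespace Pool.Agent.Results.MP_1d980c_gt.FiliformTimesAnything

universe u

/-- For the filiform Lie algebras `g = g_{m,Q}` with abelian commutator ideal: `g` is a direct
factor of a Lie algebra with a complex structure iff `Q ≡ c (X + σQ)^k mod X^m` for some `c, σ` and
`k ≥ 2`; then there is a complementary factor of the same dimension, and otherwise no product
`g × h`, with a real Lie algebra `h` of finite or infinite dimension, has a complex structure. The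
second case occurs in every dimension `m + 2 ≥ 7`. -/
theorem result (m : ℕ) (Q : ℝ[X]) (hm : 2 ≤ m) (hQ : X ^ 2 ∣ Q) :
    (Module.finrank ℝ (Fil ℝ m Q) = m + 2 ∧ IsFiliform ℝ (Fil ℝ m Q) ∧
      ∀ a b c d : Fil ℝ m Q, ⁅⁅a, b⁆, ⁅c, d⁆⁆ = 0) ∧
    ((∃ (c σ : ℝ) (k : ℕ), 2 ≤ k ∧ X ^ m ∣ Q - C c * (X + C σ * Q) ^ k) →
      ∃ (h : Type) (_ : LieRing h) (_ : LieAlgebra ℝ h) (J : Fil ℝ m Q × h →ₗ[ℝ] Fil ℝ m Q × h),
        Module.finrank ℝ h = m + 2 ∧ IsComplexStructure J) ∧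
    ((¬ ∃ (c σ : ℝ) (k : ℕ), 2 ≤ k ∧ X ^ m ∣ Q - C c * (X + C σ * Q) ^ k) →
      ∀ (h : Type u) [LieRing h] [LieAlgebra ℝ h] (J : Fil ℝ m Q × h →ₗ[ℝ] Fil ℝ m Q × h),
        ¬ IsComplexStructure J) ∧
    (5 ≤ m → ¬ ∃ (c σ : ℝ) (k : ℕ), 2 ≤ k ∧
      X ^ m ∣ (X ^ 2 + X ^ 4) - C c * (X + C σ * (X ^ 2 + X ^ 4)) ^ k) := by
  refine ⟨⟨finrank_Fil, Fil_isFiliform hQ, Fil_derived_abelian⟩, ?_, ?_, example_no_crit⟩
  · rintro ⟨c, σ, k, hk, h⟩
    obtain ⟨P, hP⟩ := criterion_sufficient c σ k hQ (by omega) h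
    exact ⟨GP ⟨P, hP⟩, inferInstance, inferInstance, JP ⟨P, hP⟩, finrank_Fil (Q := Q),
      JP_isComplex _⟩
  · intro hn h _ _ J hJ
    exact hn (criterion_necessary hQ hm (corner_mcybe hJ))

end Pool.Agent.Results.MP_1d980c_gt.FiliformTimesAnything
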